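import Pool.Agent.MP_9bf990_al.OS.Chain

/-!
Either closure property alone, inside the groups of the formation, forces subgroup closure.
-/

set_option autoImplicit false
set_option linter.unusedSectionVars false

namespace Pool.Agent.MP_9bf990_al

namespace SatForm

namespace OS

variable {𝔉 : SatForm}

/-- The conclusion needed from the regular wreath product. -/
def Step (𝔉 : SatForm) {Q : Type} [Group Q] (p : ℕ) (M : Subgroup Q) : Prop :=
  ∀ (W : AddSubgroup (Fn (ZMod p) Q)) (hinv : ∀ m ∈ M, ∀ w ∈ W, m • w ∈ W), W ≠ ⊤ →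
    (∀ g, g ∉ M → dl p g ∈ W) →
    (∀ S : AddSubgroup (Fn (ZMod p) Q), (∀ m ∈ M, ∀ w ∈ S, m • w ∈ S) → W ≤ S →
      S = W ∨ S = ⊤) →
    𝔉.Cond (SD.pair W M hinv) (SD.pair ⊤ M (fun _ _ _ _ => trivial))

theorem step_top {Q : Type} [Group Q] (p : ℕ) (hW : 𝔉.F (SD (Fn (ZMod p) Q) Q))
    (M : Subgroup Q) (hM : M = ⊤) : Step 𝔉 p M := by
  intro W hinv _ _ _
  apply cond_of_mem
  refine 𝔉.of_surj (MonoidHom.codRestrict (MonoidHom.id _) _ fun x => ⟨trivial, ?_⟩) ?_ hW
  · rw [hM]; trivial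
  · rintro ⟨x, hx⟩
    exact ⟨x, rfl⟩

theorem module_step {Q : Type} [Group Q] [Finite Q] (p : ℕ) [hp : Fact p.Prime]
    (M : Subgroup Q) (hstep : Step 𝔉 p M) :
    𝔉.Central p M := by
  classical
  intro U _ _ hpU u₀ hgen W' hinv hne hmax
  have := Fintype.ofFinite M
  let φ : Fn (ZMod p) Q →+ U :=
    { toFun := fun f => ∑ m : M, (f m : ZMod p).val • (m • u₀)
      map_zero' := by simp
      map_add' := by
        intro f h
        rw [← Finset.sum_add_distrib]
        apply Finset.sum_congr rfl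
        intro m _
        exact val_add_nsmul p hpU _ _ _ }
  have hφ : ∀ f, φ f = ∑ m : M, (f m : ZMod p).val • (m • u₀) := fun f => rfl
  have hequiv : ∀ (m : M) (f : Fn (ZMod p) Q), φ ((m : Q) • f) = m • φ f := by
    intro m f
    rw [hφ, hφ, Finset.smul_sum]
    refine (Fintype.sum_equiv (Equiv.mulLeft m) _ _ fun y => ?_).symm
    simp [mul_smul, smul_comm m]
  have hsurj : Function.Surjective φ := by
    rw [← AddMonoidHom.range_eq_top]
    apply hgen
    · rintro m _ ⟨f, rfl⟩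
      exact ⟨_, hequiv m f⟩
    · refine ⟨Fn.of fun y => if y = 1 then 1 else 0, ?_⟩
      rw [hφ, Finset.sum_eq_single 1]
      · simp [ZMod.val_one]
      · intro b _ hb
        simp [hb]
      · simp
  have hWinv : ∀ m ∈ M, ∀ w ∈ W'.comap φ, m • w ∈ W'.comap φ := by
    intro m hm w hw
    rw [AddSubgroup.mem_comap, hequiv ⟨m, hm⟩]
    exact hinv _ _ hw
  have hcond : 𝔉.Cond (SD.pair (W'.comap φ) M hWinv) (SD.pair ⊤ M (fun _ _ _ _ => trivial)) := by
    · refine hstep _ hWinv ?_ ?_ ?_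
      · intro h
        apply hne
        rw [eq_top_iff]
        intro u _
        obtain ⟨f, rfl⟩ := hsurj u
        have : f ∈ W'.comap φ := by rw [h]; trivial
        exact this
      · intro g hg
        rw [AddSubgroup.mem_comap, hφ, Finset.sum_eq_zero]
        · exact W'.zero_mem
        · intro m _
          have : (m : Q) ≠ g := fun h => hg (h ▸ m.2)
          simp [dl, this]
      · intro S hS hle
        rcases hmax (S.map φ) (by
          rintro m _ ⟨f, hf, rfl⟩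
          exact ⟨_, hS m m.2 f hf, hequiv m f⟩) (by
          intro u hu
          obtain ⟨f, rfl⟩ := hsurj u
          exact ⟨f, hle hu, rfl⟩) with h | h
        · left
          refine le_antisymm ?_ hle
          intro f hf
          rw [AddSubgroup.mem_comap, ← h]
          exact ⟨f, hf, rfl⟩
        · right
          rw [eq_top_iff]
          intro f _
          have : φ f ∈ S.map φ := by rw [h]; trivial
          obtain ⟨f', hf', e⟩ := this
          have h2 : f - f' ∈ W'.comap φ := by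
            rw [AddSubgroup.mem_comap, map_sub, e, sub_self]
            exact W'.zero_mem
          have := S.add_mem (hle h2) hf'
          simpa using this
  obtain ⟨N', hN', hF, hle⟩ := hcond
  let χ : SD.pair (⊤ : AddSubgroup (Fn (ZMod p) Q)) M (fun _ _ _ _ => trivial) →* SD U M :=
    { toFun := fun x => ⟨φ x.1.v, ⟨x.1.g, x.2.2⟩⟩
      map_one' := by
        ext
        · simp
        · rfl
      map_mul' := by
        intro x y
        ext
        · simp only [Subgroup.coe_mul, SD.mul_v, map_add]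
          rw [← hequiv]
        · rfl }
  have hχ : Function.Surjective χ := by
    rintro ⟨u, m⟩
    obtain ⟨f, rfl⟩ := hsurj u
    exact ⟨⟨⟨f, m⟩, trivial, m.2⟩, rfl⟩
  have hNn : (N'.map χ).Normal := hN'.map χ hχ
  refine ⟨N'.map χ, hNn, ?_, ?_⟩
  · refine 𝔉.of_surj_quot ((QuotientGroup.mk' _).comp χ)
      ((QuotientGroup.mk'_surjective _).comp hχ) N' ?_ hF
    intro x hx
    simp only [MonoidHom.comp_apply, QuotientGroup.mk'_apply]
    rw [QuotientGroup.eq_one_iff]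
    exact ⟨x, hx, rfl⟩
  · rintro _ ⟨x, hx, rfl⟩
    exact (hle hx).1

theorem crit_data {Y : Type} [Group Y] [Finite Y] (hY : ¬ 𝔉.F Y)
    (hquot : ∀ (P : Subgroup Y) [P.Normal], P ≠ ⊥ → 𝔉.F (Y ⧸ P)) :
    ∃ (N T : Subgroup Y), N.Normal ∧ N ≠ ⊥ ∧ (∀ P : Subgroup Y, P.Normal → P ≠ ⊥ → N ≤ P) ∧
      IsCoatom T ∧ ¬ N ≤ T := by
  have hnt : Nontrivial Y := by
    by_contra h
    rw [not_nontrivial_iff_subsingleton] at h
    exact hY (𝔉.of_subsingleton Y)
  obtain ⟨N, ⟨hN, hN0⟩, hmin⟩ := Set.Finite.exists_minimal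
    (Set.toFinite {P : Subgroup Y | P.Normal ∧ P ≠ ⊥}) ⟨⊤, inferInstance, top_ne_bot⟩
  have hmono : ∀ P : Subgroup Y, P.Normal → P ≠ ⊥ → N ≤ P := by
    intro P hP hP0
    by_cases h : N ⊓ P = ⊥
    · exact absurd (𝔉.of_quot_bot _ h (𝔉.sub Y N P (hquot N hN0) (hquot P hP0))) hY
    · exact (hmin (y := N ⊓ P) ⟨inferInstance, h⟩ inf_le_left).trans inf_le_right
  obtain ⟨T, hT, hNT⟩ : ∃ T : Subgroup Y, IsCoatom T ∧ ¬ N ≤ T := by
    by_contra hcon
    push Not at hcon
    apply hY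
    apply 𝔉.sat
    apply hquot
    intro h
    apply hN0
    rw [eq_bot_iff, ← h]
    unfold frattini Order.radical
    exact le_iInf₂ fun L hL => hcon L hL
  exact ⟨N, T, hN, hN0, hmono, hT, hNT⟩

theorem crit_mem {M Y Γ : Type} [Group M] [Group Y] [Finite Y] [Group Γ] (σ : M →* Y)
    (hσ : Function.Surjective σ) (N T : Subgroup Y) (hN : N.Normal) (hN0 : N ≠ ⊥)
    (hmono : ∀ P : Subgroup Y, P.Normal → P ≠ ⊥ → N ≤ P) (hT : IsCoatom T) (hNT : ¬ N ≤ T)
    (p : ℕ) [hp : Fact p.Prime] (hpN : p ∣ Nat.card N) (hC : 𝔉.Central p Γ) (ρ : M →* Γ)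
    (hρ : Function.Surjective ρ) (hPp : IsPGroup p (ρ.ker.map σ)) : 𝔉.F Y := by
  classical
  have hpp := hp.out
  let P : Subgroup Y := ρ.ker.map σ
  have hPn : P.Normal := Subgroup.Normal.map inferInstance σ hσ
  have hPc := cent_of_pgroup p N hmono P hPp
  by_cases hcomm : ∀ a ∈ N, ∀ b ∈ N, a * b = b * a
  · have hsup : T ⊔ N = ⊤ := by
      apply hT.2
      refine lt_of_le_of_ne le_sup_left fun h => hNT ?_
      rw [h]; exact le_sup_right
    have hcent : ∀ c ∈ T, (∀ a ∈ N, c * a = a * c) → c = 1 := by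
      intro c hcT hc
      have hn : (Subgroup.centralizer (N : Set Y) ⊓ T).Normal := ⟨by
        rintro x ⟨hx1, hx2⟩ y
        refine ⟨Subgroup.Normal.conj_mem inferInstance x hx1 y, ?_⟩
        have hy : y ∈ T ⊔ N := by rw [hsup]; trivial
        obtain ⟨t, ht, n, hn, rfl⟩ := Subgroup.mem_sup_of_normal_right.1 hy
        have h1 : n * x = x * n := hx1 n hn
        have e : t * n * x * (t * n)⁻¹ = t * x * t⁻¹ := by
          rw [mul_assoc t n x, h1]; group
        rw [e]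
        exact T.mul_mem (T.mul_mem ht hx2) (T.inv_mem ht)⟩
      have hb : Subgroup.centralizer (N : Set Y) ⊓ T = ⊥ := by
        by_contra h
        exact hNT ((hmono _ hn h).trans inf_le_right)
      have : c ∈ Subgroup.centralizer (N : Set Y) ⊓ T := ⟨fun a ha => (hc a ha).symm, hcT⟩
      rwa [hb] at this
    have hbij : Function.Bijective ((QuotientGroup.mk' N).comp T.subtype) := by
      constructor
      · rw [injective_iff_map_eq_one]
        intro t ht
        have h1 : (t : Y) ∈ N := (QuotientGroup.eq_one_iff _).1 ht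
        exact Subtype.ext (hcent t t.2 fun a ha => hcomm _ h1 _ ha)
      · intro q
        obtain ⟨y, rfl⟩ := QuotientGroup.mk'_surjective N q
        have hy : y ∈ T ⊔ N := by rw [hsup]; trivial
        obtain ⟨t, ht, n, hn, rfl⟩ := Subgroup.mem_sup_of_normal_right.1 hy
        refine ⟨⟨t, ht⟩, ?_⟩
        simp [(QuotientGroup.eq_one_iff n).2 hn]
    let e := MulEquiv.ofBijective _ hbij
    let τ₀ : Y →* Y := T.subtype.comp (e.symm.toMonoidHom.comp (QuotientGroup.mk' N))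
    have hτ₀T : ∀ y, τ₀ y ∈ T := fun y => (e.symm _).2
    have hτ₀ : ∀ y, y * (τ₀ y)⁻¹ ∈ N := by
      intro y
      have h1 : ((τ₀ y : Y) : Y ⧸ N) = y := e.apply_symm_apply (y : Y ⧸ N)
      have := QuotientGroup.eq_iff_div_mem.1 h1.symm
      rwa [div_eq_mul_inv] at this
    have hker : ρ.ker ≤ (τ₀.comp σ).ker := by
      intro m hm
      have h1 : σ m ∈ P := ⟨m, hm, rfl⟩
      refine hcent _ (hτ₀T _) fun a ha => ?_
      have h2 := hPc _ h1 a ha
      have h3 := hcomm _ (hτ₀ (σ m)) a ha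
      show τ₀ (σ m) * a = a * τ₀ (σ m)
      have e1 : τ₀ (σ m) = (σ m * (τ₀ (σ m))⁻¹)⁻¹ * σ m := by group
      have h4 : (σ m * (τ₀ (σ m))⁻¹)⁻¹ * a = a * (σ m * (τ₀ (σ m))⁻¹)⁻¹ :=
        hcomm _ (N.inv_mem (hτ₀ (σ m))) a ha
      rw [e1, mul_assoc, h2, ← mul_assoc, h4, mul_assoc]
    let τ := ρ.liftOfSurjective hρ ⟨τ₀.comp σ, hker⟩
    have hτ : ∀ m, τ (ρ m) = τ₀ (σ m) := fun m =>
      ρ.liftOfRightInverse_comp_apply _ _ ⟨τ₀.comp σ, hker⟩ m
    refine 𝔉.finish_abelian p hC N T hN0 hmono hNT hcomm ?_ τ ?_ ?_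
    · let N₁ : Subgroup Y :=
        { carrier := {a | a ∈ N ∧ a ^ p = 1}
          mul_mem' := by
            rintro a b ⟨ha, ha'⟩ ⟨hb, hb'⟩
            refine ⟨N.mul_mem ha hb, ?_⟩
            rw [Commute.mul_pow (hcomm a ha b hb), ha', hb', one_mul]
          one_mem' := ⟨N.one_mem, one_pow p⟩
          inv_mem' := by
            rintro a ⟨ha, ha'⟩
            exact ⟨N.inv_mem ha, by rw [inv_pow, ha', inv_one]⟩ }
      have hN₁ : N₁.Normal := ⟨by
        rintro a ⟨ha, ha'⟩ y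
        exact ⟨hN.conj_mem a ha y, by rw [conj_pow, ha']; simp⟩⟩
      obtain ⟨z, hz⟩ := exists_prime_orderOf_dvd_card' p hpN
      have hz1 : (z : Y) ∈ N₁ := ⟨z.2, by
        rw [← hz, ← Subgroup.coe_pow, pow_orderOf_eq_one, Subgroup.coe_one]⟩
      have hN₁0 : N₁ ≠ ⊥ := by
        intro h
        rw [h, Subgroup.mem_bot] at hz1
        have : z = 1 := Subtype.ext hz1
        rw [this, orderOf_one] at hz
        exact hpp.one_lt.ne hz
      exact fun a ha => (hmono N₁ hN₁ hN₁0 ha).2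
    · intro m
      obtain ⟨m, rfl⟩ := hρ m
      rw [hτ]; exact hτ₀T _
    · intro y
      obtain ⟨m, rfl⟩ := hσ y
      exact ⟨ρ m, by rw [hτ]; exact hτ₀ _⟩
  · have hPbot : P = ⊥ := by
      by_contra h
      exact hcomm fun a ha b hb => hPc a (hmono P hPn h ha) b hb
    have hker : ρ.ker ≤ σ.ker := by
      intro m hm
      have h1 : σ m ∈ P := ⟨m, hm, rfl⟩
      rwa [hPbot] at h1
    let τ := ρ.liftOfSurjective hρ ⟨σ, hker⟩
    have hτ : ∀ m, τ (ρ m) = σ m := fun m =>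
      ρ.liftOfRightInverse_comp_apply _ _ ⟨σ, hker⟩ m
    have hNp : ¬ IsPGroup p N := fun h => hcomm (cent_of_pgroup p N hmono N h)
    obtain ⟨a, ha⟩ : ∃ a : N, ∀ k : ℕ, a ^ p ^ k ≠ 1 := by
      by_contra hcon
      push Not at hcon
      exact hNp hcon
    obtain ⟨k, m, hm, e⟩ := Nat.exists_eq_pow_mul_and_not_dvd (orderOf_pos a).ne' p hpp.ne_one
    refine 𝔉.finish_nonabelian p hC N hmono ((a ^ p ^ k : N) : Y) (a ^ p ^ k).2
      (fun h => ha k (Subtype.ext h)) ?_ τ ?_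
    · have h1 : orderOf (a ^ p ^ k) ∣ m := by
        apply orderOf_dvd_of_pow_eq_one
        rw [← pow_mul, ← e, pow_orderOf_eq_one]
      rw [Subgroup.orderOf_coe]
      exact Nat.Coprime.coprime_dvd_left h1 ((Nat.Prime.coprime_iff_not_dvd hpp).2 hm).symm
    · intro y
      obtain ⟨m, rfl⟩ := hσ y
      exact ⟨ρ m, hτ m⟩

theorem coatom_mem
    (hS : ∀ (Q : Type) [Group Q] [Finite Q] (p : ℕ) [Fact p.Prime],
      𝔉.F (SD (Fn (ZMod p) Q) Q) → ∀ M : Subgroup Q, IsCoatom M → Step 𝔉 p M)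
    {G : Type} [Group G] (hG : 𝔉.F G) (M : Subgroup G) (hM : IsCoatom M) : 𝔉.F M := by
  classical
  have := 𝔉.fin G hG
  by_contra hFM
  obtain ⟨Y, _, σ, hσ, hY, hquot⟩ := 𝔉.exists_crit _ M rfl hFM
  have : Finite Y := Finite.of_surjective σ hσ
  obtain ⟨N, T, hN, hN0, hmono, hT, hNT⟩ := crit_data hY hquot
  obtain ⟨p, hpp, hpN⟩ := Nat.exists_prime_and_dvd
    ((Subgroup.one_lt_card_iff_ne_bot N).2 hN0).ne'
  have hp : Fact p.Prime := ⟨hpp⟩
  have hpG : p ∣ Nat.card G :=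
    ((hpN.trans (Subgroup.card_subgroup_dvd_card N)).trans
      (Subgroup.card_dvd_of_surjective σ hσ)).trans (Subgroup.card_subgroup_dvd_card M)
  obtain ⟨K₀, K, hK₀, hK, hW, hKp, hK₀K⟩ := 𝔉.exists_wreath hG p hpG
  let π := QuotientGroup.mk' K₀
  have hπ : Function.Surjective π := QuotientGroup.mk'_surjective K₀
  have hMb : M.map π = ⊤ ∨ IsCoatom (M.map π) := by
    by_cases h : M.map π = ⊤
    · exact Or.inl h
    · refine Or.inr ⟨h, fun P hP => ?_⟩
      have h1 : M ≤ P.comap π := Subgroup.map_le_iff_le_comap.1 hP.le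
      rcases h1.lt_or_eq with h2 | h2
      · rw [← Subgroup.map_comap_eq_self_of_surjective hπ P, hM.2 _ h2,
          Subgroup.map_top_of_surjective _ hπ]
      · exfalso
        apply hP.ne
        rw [h2, Subgroup.map_comap_eq_self_of_surjective hπ P]
  have hC : 𝔉.Central p (M.map π) := module_step p _
    (hMb.elim (step_top p hW _) (hS _ p hW _))
  let ρ := π.subgroupMap M
  have hρ : Function.Surjective ρ := π.subgroupMap_surjective M
  have hkerρ : ∀ m : M, ρ m = 1 → (m : G) ∈ K₀ := by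
    intro m hm
    have : π m = 1 := congrArg Subtype.val hm
    exact (QuotientGroup.eq_one_iff _).1 this
  have hKbot : (K.subgroupOf M).map σ = ⊥ := by
    by_contra h
    have h1 := hmono _ (Subgroup.Normal.map inferInstance σ hσ) h
    apply hKp
    have h2 : Nat.card (K.subgroupOf M) ∣ Nat.card K :=
      Subgroup.card_dvd_of_injective
        (MonoidHom.codRestrict (M.subtype.comp (K.subgroupOf M).subtype) K fun x => x.2) (by
        intro a b hab
        apply Subtype.ext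
        apply Subtype.ext
        exact congrArg (fun z : K => (z : G)) hab)
    exact ((hpN.trans (Subgroup.card_dvd_of_le h1)).trans
      (Subgroup.card_map_dvd _ σ)).trans h2
  refine hY (crit_mem σ hσ N T hN hN0 hmono hT hNT p hpN hC ρ hρ ?_)
  rintro ⟨_, m, hm, rfl⟩
  obtain ⟨n, hn⟩ := hK₀K m (hkerρ m hm)
  refine ⟨n, Subtype.ext ?_⟩
  have : σ (m ^ p ^ n) ∈ (K.subgroupOf M).map σ := ⟨_, hn, rfl⟩
  rw [hKbot, Subgroup.mem_bot, map_pow] at this
  exact this

theorem hereditary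
    (hS : ∀ (Q : Type) [Group Q] [Finite Q] (p : ℕ) [Fact p.Prime],
      𝔉.F (SD (Fn (ZMod p) Q) Q) → ∀ M : Subgroup Q, IsCoatom M → Step 𝔉 p M)
    {G : Type} [Group G] (hG : 𝔉.F G) (H : Subgroup G) :
    𝔉.F H := by
  have := 𝔉.fin G hG
  induction H using WellFoundedGT.induction with
  | ind H ih =>
    rcases (le_top : H ≤ ⊤).lt_or_eq with h | rfl
    · obtain ⟨H', hc, -⟩ := exists_covBy_le_of_lt h
      have h1 : IsCoatom (H.subgroupOf H') := by
        refine ⟨fun h2 => hc.lt.not_ge (Subgroup.subgroupOf_eq_top.1 h2), fun P hP => ?_⟩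
        have h3 : H ≤ P.map H'.subtype := fun x hx => ⟨⟨x, hc.le hx⟩, hP.le hx, rfl⟩
        rcases hc.eq_or_eq h3 (Subgroup.map_subtype_le P) with h4 | h4
        · exfalso
          apply hP.not_ge
          intro x hx
          rw [Subgroup.mem_subgroupOf, ← h4]
          exact ⟨x, hx, rfl⟩
        · rw [eq_top_iff]
          intro x _
          have : (x : G) ∈ P.map H'.subtype := by rw [h4]; exact x.2
          obtain ⟨y, hy, e⟩ := this
          have : y = x := Subtype.ext e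
          exact this ▸ hy
      exact 𝔉.of_equiv (Subgroup.subgroupOfEquivOfLe hc.le)
        (coatom_mem hS (ih H' hc.lt) _ h1)
    · exact 𝔉.of_equiv Subgroup.topEquiv.symm hG


theorem pext_mem {M Γ : Type} [Group M] [Finite M] [Group Γ] (p : ℕ) [hp : Fact p.Prime]
    (hΓ : 𝔉.F Γ) (hC : 𝔉.Central p Γ) (ρ : M →* Γ) (hρ : Function.Surjective ρ)
    (hk : IsPGroup p ρ.ker) : 𝔉.F M := by
  by_contra hFM
  obtain ⟨Y, _, σ, hσ, hY, hquot⟩ := 𝔉.exists_crit _ M rfl hFM
  have : Finite Y := Finite.of_surjective σ hσ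
  obtain ⟨N, T, hN, hN0, hmono, hT, hNT⟩ := crit_data hY hquot
  have hPp : IsPGroup p (ρ.ker.map σ) := hk.map σ
  apply hY
  by_cases hP : ρ.ker.map σ = ⊥
  · refine 𝔉.of_surj_quot σ hσ ρ.ker (fun x hx => ?_) (𝔉.quot_ker ρ hρ hΓ)
    have : σ x ∈ ρ.ker.map σ := ⟨x, hx, rfl⟩
    rwa [hP] at this
  · have h1 : N ≤ ρ.ker.map σ := hmono _ (Subgroup.Normal.map inferInstance σ hσ) hP
    have h2 : IsPGroup p N := hPp.to_le h1
    have h3 : p ∣ Nat.card N :=
      (h2.card_eq_or_dvd).resolve_left ((Subgroup.one_lt_card_iff_ne_bot N).2 hN0).ne'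
    exact crit_mem σ hσ N T hN hN0 hmono hT hNT p h3 hC ρ hρ hPp

theorem pow_p_eq_one {G : Type} [Group G] (p : ℕ) (x : SD (Fn (ZMod p) G) G) (hx : x.g = 1) :
    x ^ p = 1 := by
  have h : ∀ n : ℕ, (x ^ n).v = n • x.v := by
    intro n
    induction n with
    | zero => simp
    | succ n ih => rw [pow_succ, SD.mul_v, ih, SD.pow_g, hx, one_pow, one_smul, succ_nsmul]
  ext y
  · rw [h, Fn.nsmul_apply, ZMod.natCast_self, zero_mul]; rfl
  · rw [SD.pow_g, hx, one_pow]; rfl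

theorem wreath_up {Q : Type} [Group Q] [Finite Q] (p : ℕ) [hp : Fact p.Prime]
    (hW : 𝔉.F (SD (Fn (ZMod p) Q) Q)) :
    𝔉.F (SD (Fn (ZMod p) (SD (Fn (ZMod p) Q) Q)) (SD (Fn (ZMod p) Q) Q)) := by
  have hC : 𝔉.Central p (⊤ : Subgroup Q) := module_step p _ (step_top p hW _ rfl)
  have hQ : 𝔉.F Q := 𝔉.of_surj SD.proj (fun g => ⟨⟨0, g⟩, rfl⟩) hW
  refine pext_mem p (𝔉.of_equiv Subgroup.topEquiv.symm hQ) hC
    (Subgroup.topEquiv.symm.toMonoidHom.comp (SD.proj.comp SD.proj)) ?_ ?_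
  · rintro ⟨g, hg⟩
    exact ⟨⟨0, ⟨0, g⟩⟩, rfl⟩
  · rintro ⟨x, hx⟩
    refine ⟨2, Subtype.ext ?_⟩
    have h1 : x.g.g = 1 := congrArg Subtype.val (MonoidHom.mem_ker.1 hx)
    show x ^ p ^ 2 = 1
    rw [pow_two, pow_mul]
    apply pow_p_eq_one
    rw [SD.pow_g]
    exact pow_p_eq_one p _ h1

theorem hereditary_of_join
    (hJ : ∀ (G : Type) [Group G], 𝔉.F G → ∀ A B : Subgroup G, 𝔉.Sn A → 𝔉.Sn B → 𝔉.Sn (A ⊔ B))
    {G : Type} [Group G] (hG : 𝔉.F G) (H : Subgroup G) : 𝔉.F H :=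
  hereditary (fun _ _ _ _ _ hW M hM W hinv hne hW0 hmax =>
    join_goal hJ hW M hM W hinv hne hW0 hmax) hG H

theorem hereditary_of_meet
    (hI : ∀ (G : Type) [Group G], 𝔉.F G → ∀ A B : Subgroup G, 𝔉.Sn A → 𝔉.Sn B → 𝔉.Sn (A ⊓ B))
    {G : Type} [Group G] (hG : 𝔉.F G) (H : Subgroup G) : 𝔉.F H :=
  hereditary (fun _ _ _ p _ hW M hM W hinv hne hW0 hmax =>
    chain_goal hW M hM W hinv hne hW0 hmax (sn_all hI (wreath_up p hW) (SD.pair W M hinv))
      (fun _ hm => ⟨W.zero_mem, hm⟩) (fun _ hw => hw.1)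
      (fun m hm g hg => ⟨W.sub_mem (hW0 g hg) (hinv m hm _ (hW0 g hg)), M.one_mem⟩)) hG H

theorem sn_of_hereditary {G : Type} [Group G] (hG : 𝔉.F G) (h : ∀ H : Subgroup G, 𝔉.F H)
    (A : Subgroup G) : 𝔉.Sn A := by
  have := 𝔉.fin G hG
  exact Sn.top.down le_top fun P _ _ => h P

end OS

end SatForm

end Pool.Agent.MP_9bf990_al
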