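import Pool.Agent.MP_9bf990_al.OS.Defs
import Pool.Agent.MP_9bf990_al.OS.Her

/-!
Translation between the two presentations of the definitions.
-/

namespace Pool.Agent.MP_9bf990_al.OSD

/-- The bundled formation. -/
def IsSatFormation.bundle {F : (G : Type) → [Group G] → Prop} (h : IsSatFormation F) : SatForm :=
  ⟨F, h.fin, h.iso, h.unit, h.quot, h.sub, h.sat⟩

theorem sn_iff {F : (G : Type) → [Group G] → Prop} (h : IsSatFormation F) {G : Type} [Group G]
    (A : Subgroup G) : FSubnormal F A ↔ h.bundle.Sn A := by
  constructor
  · intro hA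
    induction hA with
    | top => exact SatForm.Sn.top
    | step K L _ h1 h2 ih =>
      exact SatForm.Sn.step K L ih h1.lt (fun M a b => h1.eq_or_eq a b) h2
  · intro hA
    induction hA with
    | top => exact FSubnormal.top
    | step K L _ h1 h2 h3 ih =>
      refine FSubnormal.step K L ih ⟨h1, fun M a b => ?_⟩ h3
      rcases h2 M a.le b.le with e | e
      · exact a.ne' e
      · exact b.ne e

end Pool.Agent.MP_9bf990_al.OSD
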