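import Pool.Agent.MP_9bf990_al.Main

/-!
Chains of subnormal subgroups in a regular wreath product.
-/

set_option autoImplicit false
set_option linter.unusedSectionVars false

namespace Pool.Agent.MP_9bf990_al

namespace SatForm

namespace OS

variable {𝔉 : SatForm}

theorem cond_of_surj {G G' : Type} [Group G] [Group G'] {K L : Subgroup G} {K' L' : Subgroup G'}
    (f : K →* K') (hf : Function.Surjective f) (hL : ∀ x : K, (x : G) ∈ L → (f x : G') ∈ L')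
    (h : 𝔉.Cond L K) : 𝔉.Cond L' K' := by
  obtain ⟨N, hN, hF, hle⟩ := h
  have hNn : (N.map f).Normal := hN.map f hf
  refine ⟨N.map f, hNn, ?_, ?_⟩
  · refine 𝔉.of_surj_quot ((QuotientGroup.mk' _).comp f)
      ((QuotientGroup.mk'_surjective _).comp hf) N ?_ hF
    intro x hx
    simp only [MonoidHom.comp_apply, QuotientGroup.mk'_apply]
    rw [QuotientGroup.eq_one_iff]
    exact ⟨x, hx, rfl⟩
  · rintro _ ⟨x, hx, rfl⟩
    exact hL x (hle hx)

theorem sn_map {G G' : Type} [Group G] [Group G'] (f : G →* G') (hf : Function.Surjective f)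
    {H : Subgroup G} (hH : 𝔉.Sn H) : 𝔉.Sn (H.map f) := by
  induction hH with
  | top => rw [Subgroup.map_top_of_surjective f hf]; exact Sn.top
  | step K L _ hlt hmax hcond ih =>
    by_cases he : L.map f = K.map f
    · rw [he]; exact ih
    refine Sn.step (K.map f) (L.map f) ih
      (lt_of_le_of_ne (Subgroup.map_mono hlt.le) he) ?_ ?_
    · intro P h1 h2
      have e : (P.comap f ⊓ K).map f = P := by
        apply le_antisymm
        · rintro _ ⟨x, hx, rfl⟩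
          exact hx.1
        · intro y hy
          obtain ⟨x, hx, rfl⟩ := h2 hy
          exact ⟨x, ⟨hy, hx⟩, rfl⟩
      rcases hmax (P.comap f ⊓ K) (le_inf (Subgroup.map_le_iff_le_comap.1 h1) hlt.le)
        inf_le_right with h3 | h3
      · left; rw [← e, h3]
      · right; rw [← e, h3]
    · exact cond_of_surj (f.subgroupMap K) (f.subgroupMap_surjective K)
        (fun x hx => ⟨x, hx, rfl⟩) hcond

theorem cond_lift {G : Type} [Group G] {K L P A L' : Subgroup G} (hK : K ≤ P)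
    (hA : ∀ a ∈ A, ∀ x ∈ P, x * a * x⁻¹ ∈ A) (hP : ∀ x ∈ P, ∃ k ∈ K, k⁻¹ * x ∈ A)
    (hL : L ≤ L') (hAL : A ≤ L') (h : 𝔉.Cond L K) : 𝔉.Cond L' P := by
  obtain ⟨N, hN, hF, hle⟩ := h
  have hAn : (A.subgroupOf P).Normal := ⟨fun a ha x => hA a ha x x.2⟩
  let π : K →* P ⧸ A.subgroupOf P := (QuotientGroup.mk' _).comp (Subgroup.inclusion hK)
  have hπ : Function.Surjective π := by
    intro q
    obtain ⟨x, rfl⟩ := QuotientGroup.mk'_surjective _ q
    obtain ⟨k, hk, h1⟩ := hP x x.2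
    exact ⟨⟨k, hk⟩, QuotientGroup.eq.2 h1⟩
  have h1 : (N.map π).Normal := hN.map π hπ
  have h2 : ((N.map π).comap (QuotientGroup.mk' (A.subgroupOf P))).Normal := h1.comap _
  refine ⟨(N.map π).comap (QuotientGroup.mk' (A.subgroupOf P)), h2, ?_, ?_⟩
  · refine 𝔉.of_surj_quot ((QuotientGroup.mk' _).comp (Subgroup.inclusion hK)) ?_ N ?_ hF
    · intro q
      obtain ⟨x, rfl⟩ := QuotientGroup.mk'_surjective _ q
      obtain ⟨k, hk, h3⟩ := hP x x.2
      refine ⟨⟨k, hk⟩, QuotientGroup.eq.2 ?_⟩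
      have h4 : (Subgroup.inclusion hK ⟨k, hk⟩)⁻¹ * x ∈ A.subgroupOf P := h3
      rw [Subgroup.mem_comap, QuotientGroup.mk'_apply, (QuotientGroup.eq_one_iff _).2 h4]
      exact Subgroup.one_mem _
    · intro x hx
      simp only [MonoidHom.comp_apply, QuotientGroup.mk'_apply]
      rw [QuotientGroup.eq_one_iff]
      exact ⟨x, hx, rfl⟩
  · rintro x ⟨n, hn, e⟩
    have h5 : (Subgroup.inclusion hK n)⁻¹ * x ∈ A.subgroupOf P := QuotientGroup.eq.1 e
    have h3 : ((n : G))⁻¹ * x ∈ A := h5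
    have h4 := L'.mul_mem (hL (hle hn)) (hAL h3)
    rw [Subgroup.mem_subgroupOf]
    simpa using h4

section wreath

variable {Q : Type} [Group Q] [Finite Q] {p : ℕ} [hp : Fact p.Prime]

open Classical in
/-- The indicator function of a point. -/
noncomputable def dl (p : ℕ) (g : Q) : Fn (ZMod p) Q := Fn.of fun y => if y = g then 1 else 0

theorem smul_dl (m g : Q) : m • dl p g = dl p (m * g) := by
  classical
  ext y
  simp only [dl, Fn.of_apply, Fn.smul_apply]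
  exact if_congr inv_mul_eq_iff_eq_mul rfl rfl

theorem top_of_dl (S : AddSubgroup (Fn (ZMod p) Q)) (h : ∀ g, dl p g ∈ S) : S = ⊤ := by
  classical
  have := Fintype.ofFinite Q
  rw [eq_top_iff]
  intro f _
  have h1 := S.sum_mem (t := Finset.univ) fun g _ => S.nsmul_mem (h g) (f g : ZMod p).val
  have e : ∑ g, (f g : ZMod p).val • dl p g = f := by
    ext y
    rw [Fn.sum_apply, Finset.sum_eq_single y]
    · simp [dl]
    · intro b _ hb
      simp [dl, hb.symm]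
    · simp
  rwa [e] at h1

theorem conj_mem_ker {V G : Type} [Group G] [AddCommGroup V] [DistribMulAction G V]
    (K : Subgroup (SD V G)) {x : SD V G} (hx : x ∈ K) {w : V} (hw : w ∈ kerMod K) :
    x.g • w ∈ kerMod K := by
  have h := K.mul_mem (K.mul_mem hx hw) (K.inv_mem hx)
  have e : x * ⟨w, 1⟩ * x⁻¹ = ⟨x.g • w, 1⟩ := by ext <;> simp
  rwa [e] at h

theorem v_mem_ker {V G : Type} [Group G] [AddCommGroup V] [DistribMulAction G V]
    (K : Subgroup (SD V G)) {x : SD V G} (hx : x ∈ K) (hg : (⟨0, x.g⟩ : SD V G) ∈ K) :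
    x.v ∈ kerMod K := by
  have h := K.mul_mem hx (K.inv_mem hg)
  have e : x * (⟨0, x.g⟩ : SD V G)⁻¹ = ⟨x.v, 1⟩ := by ext <;> simp
  rwa [e] at h

theorem mem_of_ker {V G : Type} [Group G] [AddCommGroup V] [DistribMulAction G V]
    (K : Subgroup (SD V G)) {x : SD V G} (hx : x.v ∈ kerMod K) (hg : (⟨0, x.g⟩ : SD V G) ∈ K) :
    x ∈ K := by
  have h := K.mul_mem hx hg
  have e : (⟨x.v, 1⟩ : SD V G) * ⟨0, x.g⟩ = x := by ext <;> simp
  rwa [e] at h

theorem chain_cases {V : Type} [AddCommGroup V] [DistribMulAction Q V] (M : Subgroup Q)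
    (hM : IsCoatom M) (W : AddSubgroup V) (hinv : ∀ m ∈ M, ∀ w ∈ W, m • w ∈ W) (hne : W ≠ ⊤)
    (hmax : ∀ S : AddSubgroup V, (∀ m ∈ M, ∀ w ∈ S, m • w ∈ S) → W ≤ S → S = W ∨ S = ⊤)
    {H : Subgroup (SD V Q)} (hH : 𝔉.Sn H) (hMH : ∀ m ∈ M, (⟨0, m⟩ : SD V Q) ∈ H) :
    ¬ kerMod H ≤ W ∨ 𝔉.Cond (SD.pair W M hinv) (SD.pair ⊤ M (fun _ _ _ _ => trivial)) ∨
      ∃ S : AddSubgroup V, (∀ g : Q, ∀ w ∈ S, g • w ∈ S) ∧ kerMod H ≤ S ∧ S ≤ W := by
  induction hH with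
  | top => exact Or.inl fun h => hne (eq_top_iff.2 fun w _ => h (mem_kerMod.2 trivial))
  | step K L _ hlt hmx hcond ih =>
    have hMK : ∀ m ∈ M, (⟨0, m⟩ : SD V Q) ∈ K := fun m hm => hlt.le (hMH m hm)
    have hLK : kerMod L ≤ kerMod K := fun w hw => hlt.le hw
    rcases ih hMK with h | h | ⟨S, h1, h2, h3⟩
    · by_cases hL : kerMod L ≤ W
      swap
      · exact Or.inl hL
      right
      have h3 : M ≤ L.map SD.proj := fun m hm => ⟨⟨0, m⟩, hMH m hm, rfl⟩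
      rcases h3.lt_or_eq with h4 | h4
      · right
        refine ⟨kerMod L, fun g w hw => ?_, le_rfl, hL⟩
        have : g ∈ L.map SD.proj := by rw [hM.2 _ h4]; trivial
        obtain ⟨x, hx, rfl⟩ := this
        exact conj_mem_ker L hx hw
      · left
        have hLM : ∀ x ∈ L, x.g ∈ M := fun x hx => by rw [h4]; exact ⟨x, hx, rfl⟩
        have hKinv : ∀ m ∈ M, ∀ w ∈ kerMod K, m • w ∈ kerMod K :=
          fun m hm w hw => conj_mem_ker K (hMK m hm) hw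
        have hKM : ∀ x ∈ K, x.g ∈ M := by
          rcases hmx (SD.pair (kerMod K) M hKinv)
            (fun x hx => ⟨hLK (v_mem_ker L hx (hMH _ (hLM x hx))), hLM x hx⟩)
            (fun x hx => mem_of_ker K hx.1 (hMK _ hx.2)) with h5 | h5
          · exfalso
            apply h
            intro w hw
            apply hL
            rw [mem_kerMod, ← h5]
            exact ⟨hw, M.one_mem⟩
          · intro x hx
            rw [← h5] at hx
            exact hx.2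
        have hsup : kerMod K ⊔ W = ⊤ := by
          rcases hmax (kerMod K ⊔ W) (by
            intro m hm w hw
            obtain ⟨a, ha, b, hb, rfl⟩ := AddSubgroup.mem_sup.1 hw
            rw [smul_add]
            exact AddSubgroup.add_mem_sup (hKinv m hm a ha) (hinv m hm b hb)) le_sup_right
            with h5 | h5
          · exact absurd (le_sup_left.trans h5.le) h
          · exact h5
        refine cond_lift (A := SD.pair W ⊥ (fun m hm w hw => by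
          rw [Subgroup.mem_bot.1 hm, one_smul]; exact hw)) ?_ ?_ ?_ ?_ ?_ hcond
        · exact fun x hx => ⟨trivial, hKM x hx⟩
        · rintro a ⟨ha1, ha2⟩ x ⟨-, hx⟩
          have ha3 : a.g = 1 := ha2
          refine ⟨?_, by simp [ha3]⟩
          have e : (x * a * x⁻¹).v = x.g • a.v := by simp [ha3]
          rw [e]
          exact hinv _ hx _ ha1
        · rintro x ⟨-, hx⟩
          have : x.v ∈ kerMod K ⊔ W := by rw [hsup]; trivial
          obtain ⟨a, ha, b, hb, e⟩ := AddSubgroup.mem_sup.1 this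
          refine ⟨⟨a, x.g⟩, mem_of_ker K ha (hMK _ hx), ?_, by simp⟩
          have e2 : ((⟨a, x.g⟩ : SD V Q)⁻¹ * x).v = x.g⁻¹ • b := by simp [← e]
          rw [e2]
          exact hinv _ (M.inv_mem hx) _ hb
        · exact fun x hx => ⟨hL (v_mem_ker L hx (hMH _ (hLM x hx))), hLM x hx⟩
        · rintro x ⟨h5, h6⟩
          exact ⟨h5, by rw [Subgroup.mem_bot.1 h6]; exact M.one_mem⟩
    · exact Or.inr (Or.inl h)
    · exact Or.inr (Or.inr ⟨S, h1, hLK.trans h2, h3⟩)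

theorem chain_goal (hW : 𝔉.F (SD (Fn (ZMod p) Q) Q)) (M : Subgroup Q) (hM : IsCoatom M)
    (W : AddSubgroup (Fn (ZMod p) Q)) (hinv : ∀ m ∈ M, ∀ w ∈ W, m • w ∈ W) (hne : W ≠ ⊤)
    (hW0 : ∀ g, g ∉ M → dl p g ∈ W)
    (hmax : ∀ S : AddSubgroup (Fn (ZMod p) Q), (∀ m ∈ M, ∀ w ∈ S, m • w ∈ S) → W ≤ S →
      S = W ∨ S = ⊤)
    {H : Subgroup (SD (Fn (ZMod p) Q) Q)} (hH : 𝔉.Sn H)
    (hMH : ∀ m ∈ M, (⟨0, m⟩ : SD (Fn (ZMod p) Q) Q) ∈ H) (hHW : kerMod H ≤ W)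
    (hd : ∀ m ∈ M, ∀ g, g ∉ M → dl p g - m • dl p g ∈ kerMod H) :
    𝔉.Cond (SD.pair W M hinv) (SD.pair ⊤ M (fun _ _ _ _ => trivial)) := by
  rcases chain_cases M hM W hinv hne hmax hH hMH with h | h | ⟨S, h1, h2, h3⟩
  · exact absurd hHW h
  · exact h
  have a1 : ∀ m ∈ M, ∀ g, g ∉ M → ∀ x, dl p x - dl p (x * (g⁻¹ * m * g)) ∈ W := by
    intro m hm g hg x
    have := h3 (h1 (x * g⁻¹) _ (h2 (hd m hm g hg)))
    rw [smul_sub, smul_dl, smul_dl, smul_dl] at this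
    simpa [mul_assoc] using this
  have a2 : ∀ m ∈ M, ∀ g, g ∉ M → g⁻¹ * m * g ∈ M := by
    intro m hm g hg
    by_contra hr
    apply hne
    apply top_of_dl
    intro x
    by_cases hx : x ∈ M
    · have h4 : x * (g⁻¹ * m * g) ∉ M := fun h => hr ((M.mul_mem_cancel_left hx).1 h)
      have := W.add_mem (a1 m hm g hg x) (hW0 _ h4)
      simpa using this
    · exact hW0 x hx
  obtain ⟨g, hg⟩ : ∃ g, g ∉ M := by
    by_contra hcon
    push Not at hcon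
    exact hM.1 (eq_top_iff.2 fun w _ => hcon w)
  have a3 : ∀ m ∈ M, ∀ x, dl p x - dl p (x * m) ∈ W := by
    intro m hm x
    have h4 := a2 m hm g⁻¹ (fun h => hg (M.inv_mem_iff.1 h))
    have := a1 _ h4 g hg x
    simpa [mul_assoc] using this
  have a4 : ∀ m ∈ M, ∀ f : Fn (ZMod p) Q, f - m • f ∈ W := by
    intro m hm f
    let θ : Fn (ZMod p) Q →+ Fn (ZMod p) Q :=
      AddMonoidHom.id _ - DistribSMul.toAddMonoidHom _ m
    have hθ : W.comap θ = ⊤ := by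
      apply top_of_dl
      intro x
      show dl p x - m • dl p x ∈ W
      rw [smul_dl]
      by_cases hx : x ∈ M
      · have := a3 (x⁻¹ * m * x) (M.mul_mem (M.mul_mem (M.inv_mem hx) hm) hx) x
        simpa [mul_assoc] using this
      · exact W.sub_mem (hW0 x hx) (hW0 _ fun h => hx ((M.mul_mem_cancel_left hm).1 h))
    have : f ∈ W.comap θ := by rw [hθ]; trivial
    exact this
  have hn : ((SD.pair W M hinv).subgroupOf
      (SD.pair (⊤ : AddSubgroup (Fn (ZMod p) Q)) M (fun _ _ _ _ => trivial))).Normal := ⟨by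
    rintro ⟨a, ha⟩ ⟨h4, h5⟩ ⟨x, -, hx⟩
    have h6 : x.g * a.g * x.g⁻¹ ∈ M := M.mul_mem (M.mul_mem hx h5) (M.inv_mem hx)
    refine ⟨?_, h6⟩
    have e : (x * a * x⁻¹).v = x.g • a.v + (x.v - (x.g * a.g * x.g⁻¹) • x.v) := by
      simp [mul_smul]; abel
    show (x * a * x⁻¹).v ∈ W
    rw [e]
    exact W.add_mem (hinv _ hx _ h4) (a4 _ h6 _)⟩
  refine ⟨_, hn, ?_, le_rfl⟩
  let B : Subgroup (SD (Fn (ZMod p) Q) Q) := SD.pair ⊤ ⊥ (fun _ _ _ _ => trivial)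
  have hB : B ≤ SD.pair (⊤ : AddSubgroup (Fn (ZMod p) Q)) M (fun _ _ _ _ => trivial) :=
    fun x hx => ⟨trivial, by rw [Subgroup.mem_bot.1 hx.2]; exact M.one_mem⟩
  refine 𝔉.of_surj ((QuotientGroup.mk' _).comp (Subgroup.inclusion hB)) ?_
    (𝔉.base_mem p hW B fun x hx => hx.2)
  intro q
  obtain ⟨⟨x, hx⟩, rfl⟩ := QuotientGroup.mk'_surjective _ q
  refine ⟨⟨⟨x.v, 1⟩, trivial, Subgroup.mem_bot.2 rfl⟩, QuotientGroup.eq.2 ⟨?_, ?_⟩⟩
  · show ((⟨x.v, 1⟩ : SD (Fn (ZMod p) Q) Q)⁻¹ * x).v ∈ W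
    simp
  · show ((⟨x.v, 1⟩ : SD (Fn (ZMod p) Q) Q)⁻¹ * x).g ∈ M
    simpa using hx.2

/-- The standard complement. -/
def cpl (V G : Type) [Group G] [AddCommGroup V] [DistribMulAction G V] (M : Subgroup G) :
    Subgroup (SD V G) := SD.pair ⊥ M (by simp +contextual)

theorem up_mem {V G : Type} [Group G] [AddCommGroup V] [DistribMulAction G V]
    (hW : 𝔉.F (SD V G)) (P : Subgroup (SD V G)) (hP : cpl V G ⊤ ≤ P) : 𝔉.F P := by
  have hg : ∀ g : G, (⟨0, g⟩ : SD V G) ∈ P := fun g => hP ⟨rfl, trivial⟩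
  obtain ⟨K, hK, hF⟩ : 𝔉.Good G (kerMod P) :=
    ((Good.top_iff 𝔉).2 hW).sub _ le_top fun g w hw => conj_mem_ker P (hg g) hw
  have : K = P := by
    ext x
    rw [hK]
    exact ⟨fun h => mem_of_ker P h (hg _), fun h => v_mem_ker P h (hg _)⟩
  exact this ▸ hF

theorem sn_cpl_top {V G : Type} [Group G] [AddCommGroup V] [DistribMulAction G V]
    (hW : 𝔉.F (SD V G)) : 𝔉.Sn (cpl V G ⊤) := by
  have := 𝔉.fin _ hW
  exact Sn.top.down le_top fun P h _ => up_mem hW P h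

theorem sn_cpl {V G : Type} [Group G] [AddCommGroup V] [DistribMulAction G V]
    (hW : 𝔉.F (SD V G)) (M : Subgroup G) (hM : IsCoatom M) : 𝔉.Sn (cpl V G M) := by
  refine Sn.step (cpl V G ⊤) _ (sn_cpl_top hW) ?_ ?_ (𝔉.cond_of_mem _ _ (up_mem hW _ le_rfl))
  · refine lt_of_le_of_ne (fun x hx => ⟨hx.1, trivial⟩) fun h => hM.1 ?_
    rw [eq_top_iff]
    intro g _
    have : (⟨0, g⟩ : SD V G) ∈ cpl V G M := by rw [h]; exact ⟨rfl, trivial⟩
    exact this.2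
  · intro P h1 h2
    have h3 : M ≤ P.map SD.proj := fun m hm => ⟨⟨0, m⟩, h1 ⟨rfl, hm⟩, rfl⟩
    rcases h3.lt_or_eq with h4 | h4
    · right
      refine le_antisymm h2 ?_
      rintro ⟨v, g⟩ ⟨hv, -⟩
      have hv' : v = 0 := hv
      subst hv'
      have : g ∈ P.map SD.proj := by rw [hM.2 _ h4]; trivial
      obtain ⟨⟨v, g'⟩, hx, rfl⟩ := this
      have hv' : v = 0 := (h2 hx).1
      subst hv'
      exact hx
    · left
      refine le_antisymm ?_ h1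
      intro x hx
      exact ⟨(h2 hx).1, by rw [h4]; exact ⟨x, hx, rfl⟩⟩

theorem join_goal
    (hJ : ∀ (G : Type) [Group G], 𝔉.F G → ∀ A B : Subgroup G, 𝔉.Sn A → 𝔉.Sn B → 𝔉.Sn (A ⊔ B))
    (hW : 𝔉.F (SD (Fn (ZMod p) Q) Q)) (M : Subgroup Q) (hM : IsCoatom M)
    (W : AddSubgroup (Fn (ZMod p) Q)) (hinv : ∀ m ∈ M, ∀ w ∈ W, m • w ∈ W) (hne : W ≠ ⊤)
    (hW0 : ∀ g, g ∉ M → dl p g ∈ W)
    (hmax : ∀ S : AddSubgroup (Fn (ZMod p) Q), (∀ m ∈ M, ∀ w ∈ S, m • w ∈ S) → W ≤ S →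
      S = W ∨ S = ⊤) :
    𝔉.Cond (SD.pair W M hinv) (SD.pair ⊤ M (fun _ _ _ _ => trivial)) := by
  have hc : cpl (Fn (ZMod p) Q) Q M ≤ SD.pair W M hinv := by
    rintro x ⟨h1, h2⟩
    exact ⟨by rw [AddSubgroup.mem_bot.1 h1]; exact W.zero_mem, h2⟩
  obtain ⟨H, ⟨hH, h1, h2⟩, hmx⟩ := Set.Finite.exists_maximal
    (Set.toFinite {H : Subgroup (SD (Fn (ZMod p) Q) Q) |
      𝔉.Sn H ∧ cpl _ Q M ≤ H ∧ H ≤ SD.pair W M hinv}) ⟨_, sn_cpl hW M hM, le_rfl, hc⟩
  have hMH : ∀ m ∈ M, (⟨0, m⟩ : SD (Fn (ZMod p) Q) Q) ∈ H := fun m hm => h1 ⟨rfl, hm⟩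
  refine chain_goal hW M hM W hinv hne hW0 hmax hH hMH (fun w hw => (h2 hw).1) ?_
  intro m hm g hg
  let c : SD (Fn (ZMod p) Q) Q := ⟨dl p g, 1⟩
  have hcm : c ∈ SD.pair W M hinv := ⟨hW0 g hg, M.one_mem⟩
  have h3 := sn_map (MulAut.conj c).toMonoidHom (MulAut.conj c).surjective (sn_cpl hW M hM)
  have h4 : (cpl (Fn (ZMod p) Q) Q M).map (MulAut.conj c).toMonoidHom ≤ SD.pair W M hinv := by
    rintro _ ⟨x, hx, rfl⟩
    exact Subgroup.mul_mem _ (Subgroup.mul_mem _ hcm (hc hx)) (Subgroup.inv_mem _ hcm)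
  have h5 := hmx (y := H ⊔ _) ⟨hJ _ hW _ _ hH h3, h1.trans le_sup_left, sup_le h2 h4⟩ le_sup_left
  have h6 : c * ⟨0, m⟩ * c⁻¹ ∈ H := h5 (Subgroup.mem_sup_right ⟨⟨0, m⟩, ⟨rfl, hm⟩, rfl⟩)
  have h7 := v_mem_ker H h6 (by simpa [c] using hMH m hm)
  simpa [c, sub_eq_add_neg] using h7

theorem sn_all
    (hI : ∀ (G : Type) [Group G], 𝔉.F G → ∀ A B : Subgroup G, 𝔉.Sn A → 𝔉.Sn B → 𝔉.Sn (A ⊓ B))
    (hW : 𝔉.F (SD (Fn (ZMod p) Q) Q)) (H : Subgroup Q) : 𝔉.Sn H := by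
  classical
  let c : SD (Fn (ZMod p) Q) Q := ⟨Fn.of fun y => if y ∈ H then 1 else 0, 1⟩
  have h1 := hI _ hW _ _ (sn_cpl_top hW)
    (sn_map (MulAut.conj c).toMonoidHom (MulAut.conj c).surjective (sn_cpl_top hW))
  have h2 := sn_map SD.proj (fun g => ⟨⟨0, g⟩, rfl⟩) h1
  have e : (cpl (Fn (ZMod p) Q) Q ⊤ ⊓
      (cpl (Fn (ZMod p) Q) Q ⊤).map (MulAut.conj c).toMonoidHom).map SD.proj = H := by
    apply le_antisymm
    · rintro _ ⟨x, ⟨hx, ⟨⟨v, g⟩, ⟨hv, -⟩, rfl⟩⟩, rfl⟩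
      have hv' : v = 0 := hv
      subst hv'
      have h3 : (c * ⟨0, g⟩ * c⁻¹ : SD (Fn (ZMod p) Q) Q).v = 0 := hx.1
      have h4 := congrFun h3 1
      show (c * ⟨0, g⟩ * c⁻¹ : SD (Fn (ZMod p) Q) Q).g ∈ H
      by_contra hg
      simp [c] at hg
      simp [c, hg, H.one_mem] at h4
    · intro g hg
      refine ⟨⟨0, g⟩, ⟨⟨rfl, trivial⟩, ⟨0, g⟩, ⟨rfl, trivial⟩, ?_⟩, rfl⟩
      show c * ⟨0, g⟩ * c⁻¹ = ⟨0, g⟩
      ext y
      · simp [c, H.mul_mem_cancel_left (H.inv_mem hg)]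
      · simp [c]
  rwa [e] at h2

end wreath

end OS

end SatForm

end Pool.Agent.MP_9bf990_al
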