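import Mathlib

/-!
Saturated formations of finite groups and subnormality with respect to a formation.
-/

namespace Pool.Agent.MP_9bf990_al.OSD

/-- `F` is a saturated formation of finite groups. -/
structure IsSatFormation (F : (G : Type) → [Group G] → Prop) : Prop where
  fin : ∀ (G : Type) [Group G], F G → Finite G
  iso : ∀ (G H : Type) [Group G] [Group H], Nonempty (G ≃* H) → F G → F H
  unit : F Unit
  quot : ∀ (G : Type) [Group G] [Finite G] (N : Subgroup G) [N.Normal], F G → F (G ⧸ N)
  sub : ∀ (G : Type) [Group G] [Finite G] (N₁ N₂ : Subgroup G) [N₁.Normal] [N₂.Normal],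
    F (G ⧸ N₁) → F (G ⧸ N₂) → F (G ⧸ (N₁ ⊓ N₂))
  sat : ∀ (G : Type) [Group G] [Finite G], F (G ⧸ frattini G) → F G

/-- The `F`-subnormal subgroups of `G`: reached from `G` by steps to a maximal subgroup `L` of `K`
that contains a normal subgroup `N` of `K` with `K / N` in `F`, that is, the residual of `K`. -/
inductive FSubnormal (F : (G : Type) → [Group G] → Prop) {G : Type} [Group G] :
    Subgroup G → Prop
  | top : FSubnormal F ⊤
  | step (K L : Subgroup G) : FSubnormal F K → L ⋖ K →
      (∃ N : Subgroup K, ∃ _ : N.Normal, F (K ⧸ N) ∧ N ≤ L.subgroupOf K) → FSubnormal F L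

end Pool.Agent.MP_9bf990_al.OSD
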